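import Pool.Agent.W425.ND.Stm

set_option autoImplicit false

/-! Project ND, part BRK: rules for the sequences `brk f p m`. -/

namespace Pool.Agent.W864.ND

open MvPolynomial Pool.Agent.W425.ND

lemma brk_add (N : ℕ) (R : Type) [CommRing R] (f p q : MvPolynomial (Fin N) R) (m : ℕ) :
    brk f (p + q) m = brk f p m + brk f q m := by
  funext s e
  rw [Pool.Agent.W425.ND.add_apply]
  unfold brk
  rw [add_mul, add_mul, coeff_add]

lemma brk_C (N : ℕ) (R : Type) [CommRing R] (f p : MvPolynomial (Fin N) R) (t : R) (m : ℕ) :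
    brk f (C t * p) m = (C t : MvPolynomial (Option (Fin N)) R) • brk f p m := by
  funext s e
  rw [Pool.Agent.W425.ND.smul_apply, eval_C]
  unfold brk
  rw [mul_assoc, mul_assoc, coeff_C_mul, mul_assoc]

lemma brk_f (N : ℕ) (R : Type) [CommRing R] (f p : MvPolynomial (Fin N) R) (m : ℕ) :
    brk f (p * f) (m + 1) =
      (X none - C ((m : ℕ) : R) : MvPolynomial (Option (Fin N)) R) • brk f p m := by
  funext s e
  rw [Pool.Agent.W425.ND.smul_apply, map_sub, eval_C, eval_X]
  show _ = ((s : R) - (m : R)) * _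
  unfold brk
  rcases lt_trichotomy s m with h | h | h
  · rw [Nat.descFactorial_of_lt h, Nat.descFactorial_of_lt (by omega)]
    simp
  · subst h
    rw [Nat.descFactorial_of_lt (Nat.lt_succ_self _)]
    simp
  · have e1 : ((s : R) - (m : R)) = ((s - m : ℕ) : R) := by
      rw [Nat.cast_sub h.le]
    have e2 : f ^ (s - m) = f ^ (s - (m + 1)) * f := by
      rw [← pow_succ]
      congr 1
      omega
    rw [e1, Nat.descFactorial_succ, e2, ← coeff_C_mul]
    congr 1
    have e3 : (C ((s - m : ℕ) : R) : MvPolynomial (Fin N) R) = ((s - m : ℕ) : MvPolynomial (Fin N) R) := by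
      simp
    rw [e3, Nat.cast_mul]
    ring

lemma euler (N : ℕ) (R : Type) [CommRing R] (g : MvPolynomial (Fin N) R) (i : Fin N)
    (e : Fin N →₀ ℕ) : coeff e (X i * pderiv i g) = ((e i : ℕ) : R) * coeff e g := by
  induction g using MvPolynomial.induction_on' with
  | monomial u a =>
    rw [X_mul_pderiv_monomial, coeff_smul, coeff_monomial]
    split_ifs with h
    · subst h
      simp
    · simp
  | add p q hp hq =>
    rw [map_add, mul_add, coeff_add, hp, hq, coeff_add, mul_add]

lemma brk_X (N : ℕ) (R : Type) [CommRing R] (f p : MvPolynomial (Fin N) R) (i : Fin N) (m : ℕ) :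
    (X (some i) : MvPolynomial (Option (Fin N)) R) • brk f p m =
      brk f (X i * pderiv i p) m + brk f (p * (X i * pderiv i f)) (m + 1) := by
  funext s e
  rw [Pool.Agent.W425.ND.smul_apply, Pool.Agent.W425.ND.add_apply, eval_X]
  show ((e i : ℕ) : R) * _ = _
  unfold brk
  rw [← euler, ← coeff_add]
  congr 1
  rw [Derivation.leibniz, Derivation.leibniz, Derivation.leibniz_pow, Derivation.map_natCast,
    Nat.descFactorial_succ, Nat.cast_mul]
  have e1 : s - m - 1 = s - (m + 1) := by omega
  rw [e1]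
  simp only [smul_eq_mul, nsmul_eq_mul, mul_zero, zero_add, add_zero]
  ring

lemma brk_low (N : ℕ) (R : Type) [CommRing R] (f p : MvPolynomial (Fin N) R) (c : Fin N →₀ ℕ)
    (m : ℕ) : low (fun i => -(c i : ℤ)) (brk f p m) = brk f (monomial c 1 * p) m := by
  funext s e
  have hr : brk f (monomial c 1 * p) m s e = if c ≤ e then 1 * coeff (e - c)
      (p * ((s.descFactorial m : ℕ) : MvPolynomial (Fin N) R) * f ^ (s - m)) else 0 := by
    unfold brk
    rw [mul_assoc, mul_assoc, ← mul_assoc p, coeff_monomial_mul']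
  rw [hr]
  show (if ∀ i, 0 ≤ (e i : ℤ) + -(c i : ℤ) then
    ((∏ i, ((e i : ℤ) + -(c i : ℤ)).toNat.descFactorial (-(c i : ℤ)).toNat : ℕ) : R) *
      coeff (tr (fun i => -(c i : ℤ)) e)
        (p * ((s.descFactorial m : ℕ) : MvPolynomial (Fin N) R) * f ^ (s - m)) else 0) = _
  have hiff : (∀ i, 0 ≤ (e i : ℤ) + -(c i : ℤ)) ↔ c ≤ e := by
    rw [Finsupp.le_def]
    exact forall_congr' fun i => by omega
  by_cases h : c ≤ e
  · rw [if_pos (hiff.2 h), if_pos h, one_mul]
    have e1 : tr (fun i => -(c i : ℤ)) e = e - c := by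
      ext i
      simp only [tr, Finsupp.equivFunOnFinite_symm_apply_apply, Finsupp.tsub_apply]
      omega
    rw [e1]
    have e2 : (∏ i, ((e i : ℤ) + -(c i : ℤ)).toNat.descFactorial (-(c i : ℤ)).toNat) = 1 := by
      apply Finset.prod_eq_one
      intro i _
      have : (-(c i : ℤ)).toNat = 0 := by omega
      rw [this, Nat.descFactorial_zero]
    rw [e2, Nat.cast_one, one_mul]
  · rw [if_neg (fun h' => h (hiff.1 h')), if_neg h]

section
variable {N : ℕ} {k : Type} [Field k]

lemma coeff_dC (p : MvPolynomial (Fin N) (PowerSeries k)) (e : Fin N →₀ ℕ) :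
    coeff e (dC p) = PowerSeries.derivative k (coeff e p) := by
  classical
  unfold dC
  rw [coeff_sum]
  simp only [coeff_monomial]
  rw [Finset.sum_ite_eq']
  split_ifs with h
  · rfl
  · rw [notMem_support_iff.1 h, map_zero]

lemma dC_mul (p q : MvPolynomial (Fin N) (PowerSeries k)) :
    dC (p * q) = dC p * q + p * dC q := by
  ext1 e
  rw [coeff_dC, coeff_add, coeff_mul, coeff_mul, coeff_mul, map_sum, ← Finset.sum_add_distrib]
  apply Finset.sum_congr rfl
  intro x _
  rw [coeff_dC, coeff_dC, Derivation.leibniz, smul_eq_mul, smul_eq_mul]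
  ring

lemma dC_nat (n : ℕ) : dC (n : MvPolynomial (Fin N) (PowerSeries k)) = 0 := by
  ext1 e
  rw [coeff_dC, coeff_zero]
  have h : (n : MvPolynomial (Fin N) (PowerSeries k)) = C (n : PowerSeries k) := by simp
  rw [h, coeff_C]
  split_ifs
  · rw [Derivation.map_natCast]
  · rw [map_zero]

lemma dC_pow (f : MvPolynomial (Fin N) (PowerSeries k)) (n : ℕ) :
    dC (f ^ n) = (n : MvPolynomial (Fin N) (PowerSeries k)) * f ^ (n - 1) * dC f := by
  induction n with
  | zero =>
    have := dC_nat (N := N) (k := k) 1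
    rw [Nat.cast_one] at this
    simp [this]
  | succ n ih =>
    rw [pow_succ, dC_mul, ih]
    rcases Nat.eq_zero_or_pos n with h | h
    · subst h
      simp
    · have e1 : f ^ n = f ^ (n - 1) * f := by
        rw [← pow_succ]
        congr 1
        omega
      rw [Nat.add_sub_cancel, e1]
      push_cast
      ring

lemma brk_nab (f p : MvPolynomial (Fin N) (PowerSeries k)) (m : ℕ) :
    nab (brk f p m) = brk f (dC p) m + brk f (p * dC f) (m + 1) := by
  funext s e
  rw [Pool.Agent.W425.ND.add_apply]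
  unfold nab brk
  rw [← coeff_dC, ← coeff_add]
  congr 1
  rw [dC_mul, dC_mul, dC_nat, dC_pow, Nat.descFactorial_succ, Nat.cast_mul]
  have e1 : s - m - 1 = s - (m + 1) := by omega
  rw [e1]
  ring

end

theorem taskBRK : TaskBRK :=
  ⟨brk_add, brk_C, brk_f, brk_X, brk_low, fun _ _ _ f p m => brk_nab f p m⟩

end Pool.Agent.W864.ND
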